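import Pool.Agent.U570.AH.Synd
import Pool.Agent.U570.AH.Conv

/-!
# Every form `d n + a` becomes good for almost all nearby constants after a bounded substitution

The question is about the primes `n` for which `d n + 1` is prime (`s = 1`). There is an absolute constant `B` such that for
every `ε > 0` there is `C` with the following property. Let `d ≥ 1`, let `a` be any integer prime to `d` (for instance
`a = 1`) and let `M₀ ≥ 1`. There is a multiple `M` of `M₀` such that in every interval `[X, X + Y)` of length `Y ≥ Y₀`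
there are integers `|f₁| ≤ C`, `1 ≤ f₂ ≤ C` with the following property: for at least the proportion `1 - ε` of ALL
the integers `x` of the interval the forms

  `n` and `d' n + a'`, where `d' = d f₂` and `a' = a + d f₁ + M x`,

satisfy the local conditions and are simultaneously prime for infinitely many `n`, and for at least `Z / (log Z) ^ B` of
the `n ≤ Z` for arbitrarily large `Z` (the same `Z` for all these `x`). So every single `d` has a bounded multiple
`d f₂` which is good for almost all the constants of a class near any given `a` prime to `d`.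

Proof. If this is false then for `C = 1, 2, ...` there are pairs `(a_C, d_C)` without such substitutions, for all
multiples of some `M_C`. We choose `C_1 < C_2 < ...` inductively, very rapidly increasing, put `S_0 = 1`,
`S_(j + 1) = 6 S_j d_(C_j)`, and choose constants `c_j` (one for each `j`), `c_(j + 1) = a_(C_j)` modulo `d_(C_j)`, prime to
`6 S_(j + 1)`. The vertices of a partite graph with the classes `0, ..., T` are linear forms with the slopes `S_j 2 ^ r`
(several exponents `r` for each `j`) and the constants `c_j + M ^ (2 (T - j) + 1) x`; for `i < j` the slopes differ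
by the factor `2 ^ k S_j / S_i`, a multiple of `d_(C_(j - 1))` with a quotient bounded in terms of `C_(j - 1)`, and the
constant of a pair is `c_j - 2 ^ k (S_j / S_i) c_i` plus a multiple of a power of `M`: it does not depend on the
vertices for a given `k`. The pairs whose forms are not good at the scale `Z` are given by kernels `F_k (x' - ν_k x)`. Up
to a small error in cut norm `F_k` can be replaced by its average over a progression whose modulus is a power of `M`: at
a frequency which is not near a rational number with a small denominator only boundedly many of the `ν_k` can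
contribute. If the proportion `ε` of the constants is bad for all `j` and `k` then a pigeonhole argument (along the
blocks of the classes the averages stabilise: energy increment) gives four classes with a positive proportion of
quadruples of forms all of whose six pairs are bad at the scale `Z`. This contradicts the coloured Maynard-Tao theorem
`Pool.Agent.N900.FC.Main.coverU` (starting files).
-/

set_option autoImplicit false

namespace Pool.Agent.Results.MP_bca3e5_nt.AlmostAllAfterSubstitution

open Finset Filter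

/-- the `n` for which `n` and `d n + a` are prime; the question is about `a = 1` -/
def Both (d : ℕ) (a : ℤ) : Set ℕ := {n | n.Prime ∧ ∃ p : ℕ, p.Prime ∧ (d : ℤ) * n + a = p}

/-- no prime divides `n (d n + a)` for all `n`, and `a` is prime to `d` and not `0` -/
def Admissible (d : ℕ) (a : ℤ) : Prop := a ≠ 0 ∧ IsCoprime (d : ℤ) a ∧ Even ((d : ℤ) * a)

/-- at least the proportion `1 - ε` of the constants `a + M x`, `X ≤ x < X + Y`, are good for `d`: the pair is admissible,
`n` and `d n + (a + M x)` are both prime for infinitely many `n`, and for arbitrarily large `Z` (the same for all these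
`x`) for at least `Z / (log Z) ^ B` of the `n ≤ Z` -/
def AlmostAll (B : ℕ) (ε : ℝ) (d : ℕ) (a : ℤ) (M X Y : ℕ) : Prop :=
  ∃ E ⊆ Ico X (X + Y), (1 - ε) * (Y : ℝ) ≤ (E.card : ℝ) ∧
    (∀ x ∈ E, Admissible d (a + M * x) ∧ (Both d (a + M * x)).Infinite) ∧
    ∃ᶠ Z : ℕ in atTop, ∀ x ∈ E, (Z : ℝ) / (Real.log Z) ^ B ≤ ({n | n ∈ Both d (a + M * x) ∧ n ≤ Z}.ncard : ℝ)

theorem both_iff (d : ℕ) (a : ℤ) (n : ℕ) : n ∈ Both d a ↔
    (n.Prime ∧ ∃ p : ℕ, p.Prime ∧ ((1 : ℕ) : ℤ) * p - (d : ℤ) * n = a) := by
  unfold Both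
  simp only [Set.mem_ofPred_eq]
  refine and_congr_right fun _ => exists_congr fun p => and_congr_right fun _ => ?_
  push_cast
  rw [one_mul]
  constructor <;> intro h <;> linarith

theorem result : ∃ B : ℕ, ∀ ε : ℝ, 0 < ε → ∃ C : ℕ, ∀ (d : ℕ) (a : ℤ), 1 ≤ d → IsCoprime (d : ℤ) a →
    ∀ M₀ : ℕ, 1 ≤ M₀ → ∃ M : ℕ, 1 ≤ M ∧ M₀ ∣ M ∧ ∃ Y₀ : ℕ, ∀ Y : ℕ, Y₀ ≤ Y → ∀ X : ℕ,
      ∃ (f₁ : ℤ) (f₂ : ℕ), |f₁| ≤ C ∧ 1 ≤ f₂ ∧ f₂ ≤ C ∧ AlmostAll B ε (d * f₂) (a + d * f₁) M X Y := by
  obtain ⟨B, h⟩ := Pool.Agent.U570.AH.synd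
  refine ⟨B, fun ε hε => ?_⟩
  obtain ⟨C, h1⟩ := h ε hε
  refine ⟨C, fun d a hd hda M₀ hM₀ => ?_⟩
  obtain ⟨M, hM, hMM, Y₀, h2⟩ := h1 a d hd hda.symm M₀ hM₀
  refine ⟨M, hM, hMM, Y₀, fun Y hY X => ?_⟩
  obtain ⟨f₁, f₂, hf1, hf2, hf3, h3⟩ := h2 Y hY X
  refine ⟨f₁, f₂, hf1, hf2, hf3, ?_⟩
  obtain ⟨E, hE, hc, h4, h5⟩ := Pool.Agent.U570.AH.lg_conv B ε X Y 1 (d * f₂)
    (fun x => a + d * f₁ + (M : ℤ) * (x : ℤ)) h3
  refine ⟨E, hE, hc, fun x hx => ?_, h5.mono fun Z hZ x hx => ?_⟩
  · obtain ⟨hadm, hinf⟩ := h4 x hx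
    obtain ⟨_, _, hne, _, _, hbc, hodd⟩ := hadm
    refine ⟨⟨hne, hbc, ?_⟩, ?_⟩
    · rw [Int.even_mul]
      by_contra hcon
      push Not at hcon
      apply hodd
      refine ⟨odd_one, ?_, Int.not_even_iff_odd.1 hcon.2⟩
      have := Int.not_even_iff_odd.1 hcon.1
      exact_mod_cast this
    · have h6 : Set.InjOn Prod.snd {pq : ℕ × ℕ | pq.1.Prime ∧ pq.2.Prime ∧
          ((1 : ℕ) : ℤ) * pq.1 - ((d * f₂ : ℕ) : ℤ) * pq.2 = a + d * f₁ + (M : ℤ) * (x : ℤ)} := by
        rintro ⟨p, q⟩ ⟨_, _, h7⟩ ⟨p', q'⟩ ⟨_, _, h7'⟩ hqq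
        simp only at hqq h7 h7'
        rw [hqq] at h7
        have : (p : ℤ) = p' := by push_cast at h7 h7'; linarith
        rw [hqq, Nat.cast_injective this]
      refine (hinf.image h6).mono ?_
      rintro _ ⟨⟨p, q⟩, ⟨hp, hq, h7⟩, rfl⟩
      rw [both_iff]
      exact ⟨hq, p, hp, h7⟩
  · refine (hZ x hx).trans (le_of_eq ?_)
    congr 2
    ext n
    simp only [Set.mem_ofPred_eq, both_iff]

end Pool.Agent.Results.MP_bca3e5_nt.AlmostAllAfterSubstitution
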