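import Mathlib
import Pool.Agent.U462.Sh.ZTwo

set_option autoImplicit false

/-!
# The numbers `n`, `a n + 1`, `a` in `A`: every finite family of sets `A` and every sets of places
-/

namespace Pool.Agent.Results.MP_bca3e5_nt.AnyFamiliesAnyPlaces

open Finset Filter
open scoped Topology
open Pool.Agent.U462.Sh.Law

/-- **Every finite family of sets `A` and every sets of places.** Let `𝔄` be a finite family of finite sets
`A` of positive integers, and `T A` any set of natural numbers for each of them. There is a set `S` of rough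
numbers `≥ 2` which contains for no `A` in `𝔄` and no `n` in `T A` the number `n` and all the numbers `a n + 1`,
`a` in `A`, with the uniform Hardy–Littlewood law for all systems of linear forms and all intervals, except
for those systems with forms `l` and `a l + 1` for all `a` in `A`, for some `A` in `𝔄`, for which `l` has in
the interval a value in `T A`. -/
theorem result : ∀ 𝔄 : Finset (Finset ℕ), (∀ A ∈ 𝔄, ∀ a ∈ A, 1 ≤ a) → ∀ T : Finset ℕ → Set ℕ,
    ∃ S : Set ℕ, (∀ m ∈ S, 2 ≤ m ∧ Rough m) ∧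
    (∀ A ∈ 𝔄, ∀ n ∈ T A, ¬ (n ∈ S ∧ ∀ a ∈ A, a * n + 1 ∈ S)) ∧
    LawOn S (fun L u v => ∀ A ∈ 𝔄, ∀ α β : ℤ, (α, β) ∈ L → (∀ a ∈ A, ((a : ℤ) * α, (a : ℤ) * β + 1) ∈ L) →
      ∀ m : ℕ, u ≤ m → m < v → value (α, β) m ∉ T A) := by
  classical
  intro 𝔄 h𝔄 T
  obtain ⟨P, hP⟩ : ∃ P : Finset ℕ → Finset (ℤ × ℤ), P = fun A =>
      insert ((1 : ℤ), (0 : ℤ)) (A.image fun a : ℕ => (((a : ℤ), (1 : ℤ)) : ℤ × ℤ)) := ⟨_, rfl⟩
  obtain ⟨S, h1, h2, h3⟩ := Pool.Agent.U462.Sh.patOn (𝔄.image P) (by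
    intro Q hQ
    obtain ⟨A, hA, rfl⟩ := mem_image.1 hQ
    rw [hP]
    refine ⟨mem_insert_self _ _, ?_⟩
    intro l hl
    rcases mem_insert.1 hl with rfl | h
    · exact le_rfl
    · obtain ⟨a, ha, rfl⟩ := mem_image.1 h
      have := h𝔄 A hA a ha
      simp only
      exact_mod_cast this)
    (fun Q => {t | ∃ A ∈ 𝔄, P A = Q ∧ t ∈ T A})
  refine ⟨S, h1, ?_, Pool.Agent.U462.Sh.on_mono ?_ h3⟩
  · rintro A hA n hn ⟨h4, h5⟩
    refine h2 (P A) (mem_image_of_mem _ hA) n ⟨A, hA, rfl, hn⟩ ?_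
    intro l hl
    rw [hP] at hl
    rcases mem_insert.1 hl with rfl | h
    · exact ⟨n, h4, by simp⟩
    · obtain ⟨a, ha, rfl⟩ := mem_image.1 h
      exact ⟨_, h5 a ha, by push_cast; ring⟩
  · intro L u v hL Q hQ l₀ hl₀ hall n hn1 hn2
    rintro ⟨A, hA, hPA, h5⟩
    subst hPA
    refine hL A hA l₀.1 l₀.2 hl₀ ?_ n hn1 hn2 h5
    intro a ha
    have := hall ((a : ℤ), 1) (by rw [hP]; exact mem_insert_of_mem (mem_image_of_mem _ ha))
    simpa using this

end Pool.Agent.Results.MP_bca3e5_nt.AnyFamiliesAnyPlaces
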