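import Mathlib
import Pool.Agent.H661R3.OP.Final
import Pool.Agent.H661R3.OP.Cor3

/-!
# The signs of multiplicative functions at the rough tuples `n, a_1 n + 1, ..., a_s n + 1`

Let `A = {a_1, ..., a_s}` be any admissible set of the question and `S` a set of an ODD number of the `s + 1` forms `n`,
`a_1 n + 1`, ..., `a_s n + 1`. For every `ε > 0` there is `δ > 0` such that for all large `x` and every completely multiplicative
function `f` with values `1` and `-1` which is not `1` at all primes `p ≡ 1` modulo `q` in `(x ^ δ, x ^ (3 δ / 2)]` (`q` depends only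
on `A` and `S`), each of the two signs is the product of the values of `f` at the forms of `S` for at least `x ^ (1 - ε)`
integers `n ≤ x` for which none of the numbers `n, a_1 n + 1, ..., a_s n + 1` has a prime factor `≤ x ^ δ` (so all of them have
at most a constant number of prime factors). For the Liouville function `f` the condition holds for all large `x`; so the
parity of the number of prime factors of the product of the forms of `S` at these almost prime tuples is not constant.

Proof: the theorem on signs at rough values of systems of linear forms (starting files, `Pool.Agent.H661R3.OP`).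
-/

set_option autoImplicit false

open Finset

namespace Pool.Agent.Results.MP_bca3e5_nt.RoughTupleSigns

/-- `A` is admissible: for no prime `p` all the numbers `n ∏ (a n + 1)`, `n ≥ 1`, are divisible by `p`. -/
def Admissible (A : Finset ℕ) : Prop := ∀ p : ℕ, p.Prime → ∃ n : ℕ, 1 ≤ n ∧ ¬ p ∣ n * ∏ a ∈ A, (a * n + 1)

/-- the forms: `n` for `v = 0`, and `v n + 1` for `v ≥ 1` -/
def val (v n : ℕ) : ℕ := if v = 0 then n else v * n + 1

/-- **Signs at the rough tuples.** -/
theorem result (A : Finset ℕ) (hA : ∀ a ∈ A, 1 ≤ a) (hadm : Admissible A) (S : Finset ℕ) (hS : S ⊆ insert 0 A)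
    (hodd : Odd S.card) :
    ∃ q : ℕ, 0 < q ∧ ∀ ε : ℝ, 0 < ε → ∃ δ : ℝ, 0 < δ ∧ ∃ x₀ : ℝ, ∀ x : ℝ, x₀ ≤ x →
    ∀ f : ℕ → ℤ, (∀ n, n ≠ 0 → f n = 1 ∨ f n = -1) →
    (∀ m n, m ≠ 0 → n ≠ 0 → f (m * n) = f m * f n) →
    (∃ p : ℕ, p.Prime ∧ x ^ δ < p ∧ (p : ℝ) ≤ x ^ (3 / 2 * δ) ∧ p ≡ 1 [MOD q] ∧ f p = -1) →
    ∀ s : ℤ, (s = 1 ∨ s = -1) →
    x ^ (1 - ε) ≤ (({n : ℕ | 0 < n ∧ (n : ℝ) ≤ x ∧
      (∀ v ∈ insert 0 A, ∀ p : ℕ, p.Prime → p ∣ val v n → x ^ δ < p) ∧
      ∏ v ∈ S, f (val v n) = s}.ncard : ℕ) : ℝ) := by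
  classical
  have hprod : ∀ (f : ℕ → ℤ) (n : ℕ), ∏ i ∈ S.subtype (· ∈ insert 0 A), f (val (i : ℕ) n) =
      ∏ v ∈ S, f (val v n) := by
    intro f n
    rw [Finset.prod_subtype_of_mem (p := (· ∈ insert 0 A)) (fun v => f (val v n)) (fun x hx => hS hx)]
  have hcard : (S.subtype (· ∈ insert 0 A)).card = S.card := by
    rw [Finset.card_subtype]
    congr 1
    exact Finset.filter_true_of_mem fun x hx => hS hx
  have hval : ∀ v n : ℕ, (if v = 0 then (1 : ℤ) else (v : ℤ)) * (n : ℤ) + (if v = 0 then (0 : ℤ) else 1) =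
      ((val v n : ℕ) : ℤ) := by
    intro v n
    unfold val
    split_ifs
    · simp
    · push_cast
      ring
  obtain ⟨q, hq, h⟩ := Pool.Agent.H661R3.OP.mult Pool.Agent.H661R3.OP.genf {v // v ∈ insert 0 A}
    (fun i => if (i : ℕ) = 0 then 1 else ((i : ℕ) : ℤ)) (fun i => if (i : ℕ) = 0 then 0 else 1)
    (S.subtype (· ∈ insert 0 A)) (fun i => by
      split_ifs with h0
      · exact one_pos
      · exact_mod_cast Nat.pos_of_ne_zero h0) (by
      intro i j hij h0
      have hij' : (i : ℕ) ≠ j := fun h => hij (Subtype.ext h)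
      split_ifs at h0 with h1 h2 h2
      · exact hij' (h1.trans h2.symm)
      · norm_num at h0
      · norm_num at h0
      · apply hij'
        have : ((i : ℕ) : ℤ) = ((j : ℕ) : ℤ) := by linarith
        exact_mod_cast this) (by rw [hcard]; exact hodd) (by
      intro p hp
      obtain ⟨n, -, hn⟩ := hadm p hp
      refine ⟨n, fun i hd => hn ?_⟩
      rw [hval] at hd
      have hd' : p ∣ val (i : ℕ) n := by exact_mod_cast hd
      unfold val at hd'
      split_ifs at hd' with h1
      · exact hd'.mul_right _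
      · have h2 : (i : ℕ) ∈ A := (mem_insert.1 i.2).resolve_left h1
        exact (hd'.trans (dvd_prod_of_mem (fun a => a * n + 1) h2)).mul_left _)
  refine ⟨q, hq, fun ε hε => ?_⟩
  obtain ⟨δ, hδ, x₀, h⟩ := h ε hε
  refine ⟨δ, hδ, x₀, fun x hx f hf1 hf2 hp s hs => ?_⟩
  have := h x hx f hf1 hf2 hp s hs
  simp only [hval, Int.natAbs_natCast, Int.natCast_dvd_natCast, Nat.cast_pos, Subtype.forall] at this
  simp only [hprod] at this
  refine this.trans (le_of_eq ?_)
  congr 2
  ext n
  constructor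
  · rintro ⟨h1, h2, h3, h4⟩
    exact ⟨h1, h2, fun v hv => (h3 v hv).2, h4⟩
  · rintro ⟨h1, h2, h3, h4⟩
    refine ⟨h1, h2, fun v hv => ⟨?_, h3 v hv⟩, h4⟩
    unfold val
    split_ifs <;> omega

end Pool.Agent.Results.MP_bca3e5_nt.RoughTupleSigns
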