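import Mathlib
import Pool.Agent.U364.ST.Gen

/-!
# Strings of consecutive primes `n` with almost prime `a_1 n + 1, ..., a_s n + 1`, at shifted-prime distances

Let `A = {a_1, ..., a_s}` be any admissible set of the question. Fix `k ≥ 0` and consider the patterns
`0 = h 0 < h 1 < ... < h k ≤ X` all of whose distances are shifted primes: `h j - h i + σ` is PRIME for all `i < j`,
where `σ = 1` or `σ = -1` (no condition for `σ = 0`). For all large `X` a positive proportion of them occurs in EVERY
interval `(N, 2 N]` with `N ≥ N₀(X)` as the pattern of `k + 1` CONSECUTIVE primes `n` for all of which all the numbers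
`a_1 n + 1, ..., a_s n + 1` have at most `r` prime factors, all of them at least `N ^ δ`. Here `r` and `δ > 0` depend
only on `A`, `k` (and `q`), not on `X` and `N`. The pattern is found at all the terms of an arithmetic progression of
any given length `l` with difference at most `(log N) ^ b`, and the primes `n` can be taken from a residue class.

The proof: the theorem on strings of consecutive primes with almost prime companions (starting files,
`Pool.Agent.R498.MP`) and the counting of patterns of shifted primes (helper288, `Pool.Agent.U288.SP`).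
-/

set_option autoImplicit false

namespace Pool.Agent.Results.MP_bca3e5_nt.ShiftedPrimePatterns

open Filter Finset

/-- `A` is admissible: for no prime `p` all the numbers `n ∏ (a n + 1)`, `n ≥ 1`, are divisible by `p`. -/
def Admissible (A : Finset ℕ) : Prop := ∀ p : ℕ, p.Prime → ∃ n : ℕ, 1 ≤ n ∧ ¬ p ∣ n * ∏ a ∈ A, (a * n + 1)

/-- All the numbers `a p + 1`, `a ∈ A`, have at most `r` prime factors, counted with multiplicity, all of them at
least `w`. -/
def AlmostPrimeValues (A : Finset ℕ) (r : ℕ) (w : ℝ) (p : ℕ) : Prop :=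
  ∀ a ∈ A, (a * p + 1).primeFactorsList.length ≤ r ∧ ∀ q : ℕ, q.Prime → q ∣ a * p + 1 → w ≤ q

open Classical in
/-- The patterns `0 = h 0 < h 1 < ... < h k ≤ X` with `h j - h i + σ` prime for all `i < j` (no condition if
`σ = 0`). -/
noncomputable def patterns (σ : ℤ) (k X : ℕ) : Finset (Fin (k + 1) → ℕ) :=
  (Fintype.piFinset (fun _ : Fin (k + 1) => range (X + 1))).filter (fun h => h 0 = 0 ∧ StrictMono h ∧
    ∀ i j, i < j → σ ≠ 0 → ((h j : ℤ) - h i + σ).toNat.Prime)

/-- The number of the conditions: `k (k + 1) / 2` if `σ ≠ 0`, and `0` if `σ = 0`. -/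
def conditions (σ : ℤ) (k : ℕ) : ℕ := if σ = 0 then 0 else k * (k + 1) / 2

/-- The pattern `h` occurs in `(N, 2 N]`: there is an arithmetic progression of `l` terms `x` with difference between `1`
and `(log N) ^ b` such that for all its terms `x`: `N < x` and `x + h k ≤ 2 N`, the primes in `[x, x + h k]` are exactly
the numbers `x + h i`, `0 ≤ i ≤ k`, and all these primes `n` are `≡ c` modulo `q` and the numbers `a n + 1`, `a ∈ A`,
have at most `r` prime factors, all of them at least `N ^ δ`. -/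
def Occurs (A : Finset ℕ) {k : ℕ} (q c r : ℕ) (δ : ℝ) (l b N : ℕ) (h : Fin (k + 1) → ℕ) : Prop :=
  ∃ n d : ℕ, 1 ≤ d ∧ (d : ℝ) ≤ Real.log N ^ b ∧ ∀ j < l, N < n + j * d ∧ n + j * d + h (Fin.last k) ≤ 2 * N ∧
    (∀ y ≤ h (Fin.last k), (n + j * d + y).Prime ↔ ∃ i, y = h i) ∧
    ∀ i, n + j * d + h i ≡ c [MOD q] ∧ AlmostPrimeValues A r ((N : ℝ) ^ δ) (n + j * d + h i)

open Polynomial in
/-- the product of the forms -/
noncomputable def F (A : Finset ℕ) : ℤ[X] := ∏ a ∈ A, (C (a : ℤ) * X + 1)

theorem F_eval (A : Finset ℕ) (n : ℤ) : (F A).eval n = ∏ a ∈ A, ((a : ℤ) * n + 1) := by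
  unfold F
  rw [Polynomial.eval_prod]
  refine prod_congr rfl fun a _ => ?_
  simp

theorem F_cast (A : Finset ℕ) (n : ℕ) : (F A).eval (n : ℤ) = ((∏ a ∈ A, (a * n + 1) : ℕ) : ℤ) := by
  rw [F_eval]
  push_cast
  rfl

open Classical in
/-- **A positive proportion of the patterns made of shifted primes occurs, in every interval `(N, 2 N]`, as the pattern
of a string of consecutive primes `n ≡ c` modulo `q` with almost prime `a n + 1` for all `a ∈ A`.** -/
theorem result (A : Finset ℕ) (hA : ∀ a ∈ A, 1 ≤ a) (hadm : Admissible A) (q c : ℕ) (hq : Squarefree q)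
    (hc : Nat.Coprime (c * ∏ a ∈ A, (a * c + 1)) q) (k : ℕ) (σ : ℤ) (hσ : σ = 0 ∨ σ = 1 ∨ σ = -1) :
    ∃ (c₁ c₂ δ : ℝ) (r : ℕ), 0 < c₁ ∧ 0 < δ ∧ ∀ᶠ X : ℕ in atTop,
      ((patterns σ k X).card : ℝ) ≤ c₂ * ((X : ℝ) ^ k / Real.log X ^ conditions σ k) ∧
      ∀ l : ℕ, ∃ b : ℕ, ∀ᶠ N : ℕ in atTop,
        c₁ * ((X : ℝ) ^ k / Real.log X ^ conditions σ k) ≤
          (((patterns σ k X).filter (fun h => Occurs A q c r δ l b N h)).card : ℝ) := by
  have h1A : 1 ∉ A := by
    intro h1
    obtain ⟨n, -, hn⟩ := hadm 2 Nat.prime_two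
    apply hn
    rw [← mul_prod_erase A _ h1, ← mul_assoc]
    apply Dvd.dvd.mul_right
    rw [one_mul]
    exact (Nat.even_mul_succ_self n).two_dvd
  refine Pool.Agent.U364.ST.gen_shifts (F A) ?_ ?_ q c hq ?_ k σ hσ (AlmostPrimeValues A) 0 ?_
  · intro n hn
    rw [F_eval, prod_ne_zero_iff]
    intro a ha h0
    have h2 : (2 : ℤ) ≤ a := by
      have h3 := hA a ha
      have h4 : a ≠ 1 := fun h => h1A (h ▸ ha)
      exact_mod_cast (by omega : 2 ≤ a)
    have h3 : (a : ℤ) ∣ 1 := ⟨-n, by linarith⟩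
    have h4 := Int.le_of_dvd one_pos h3
    omega
  · intro p hp
    obtain ⟨n, -, hn⟩ := hadm p hp
    refine ⟨n, fun h => hn ?_⟩
    rw [F_cast] at h
    exact_mod_cast h
  · rw [F_cast]
    have := Nat.isCoprime_iff_coprime.2 hc
    push_cast at this ⊢
    exact this
  · intro r w p hp _ _ hAP a ha
    apply Pool.Agent.R498.MP.AP_nat
    refine Pool.Agent.R498.MP.AP_dvd r w _ _ hAP ?_
    rw [F_cast]
    exact_mod_cast dvd_prod_of_mem (fun a => a * p + 1) ha

end Pool.Agent.Results.MP_bca3e5_nt.ShiftedPrimePatterns
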